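import Pool.Agent.MWGP.Stmts
import Pool.Agent.Helper69_MWHP.JPX

/-!
# MWGP row JP2: the join prime criterion with two sets of free blocks (MP_23468a_al)
-/

set_option autoImplicit false

namespace Pool.Agent.MWGP.H50

open Pool.Agent.Helper14_MV Pool.Agent.Helper2_MV Pool.Agent.MVO Pool.Agent.MWL Pool.Agent.MWS
open Pool.Agent.MWA Pool.Agent.MWH Pool.Agent.MWHP
open Pool.Agent.MWH.H69 (bef_append bef_of_not_mem_fst bef_of_not_mem_snd not_bef_both le_deg
  deg_sh len_two bef01 bef10)
open Pool.Agent.MWHP.H69 (to_W vd_sh vs_sh)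

theorem vd_sh0 {k : ℕ} {a b c : ℕ → ℕ} {i : ℕ} (hV : Vd k a b i) (h : Sh k a c) : Vd k c b i := by
  refine ⟨hV.ik, ?_, hV.bi, ?_, deg_sh h hV.da, hV.db⟩
  · have h1 := hV.ai
    rcases h i hV.ik with h2 | ⟨_, h2⟩ <;> omega
  · intro j hj hne
    rcases hV.un j hj hne with h1 | h1
    · left
      rcases h j hj with h2 | ⟨h2, _⟩ <;> omega
    · exact Or.inr h1

theorem vs_sh0 {k : ℕ} {a b c : ℕ → ℕ} {i : ℕ} (hi : i ≤ k) (h : Sh k a c) {s : Stt}
    (hs : Vs a b i s) : Vs c b i s := by
  intro hov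
  rcases hs hov with h1 | h1
  · left
    rcases h i hi with h2 | ⟨_, h2⟩ <;> omega
  · exact Or.inr h1

/-- a relation of two families with the shapes of `a, b` gives a transition -/
theorem key2 (hONE : MVO.OneStmt) (hNFE : MWHP.NfeStmt) (hOKW : MWH.OkwStmt)
    (hSHW : MWHP.ShwStmt) (hRES : MWHP.ResStmt) (hRS0 : Rs0Stmt) {n : ℕ} {β θ : FIC}
    (hβ : BaseH n β)
    (hθ : β ≤ θ) {k : ℕ} {a b : ℕ → ℕ} {i : ℕ} (hV : Vd k a b i) {s s' : Stt}
    (hs : Vs a b i s) (hs' : Vs a b i s') {C C' : ℕ → List ℕ} (h01 : Two01 k C)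
    (h01' : Two01 k C') (h0 : Sh k a (fun j => (C j).count 0))
    (h0' : Sh k a (fun j => (C' j).count 0))
    (h1 : Sh k b (fun j => (C j).count 1)) (h1' : Sh k b (fun j => (C' j).count 1))
    (hf1 : Bef (C i) 0 1 ↔ s = Stt.xy) (hf2 : Bef (C i) 1 0 ↔ s = Stt.yx)
    (hf1' : Bef (C' i) 0 1 ↔ s' = Stt.xy) (hf2' : Bef (C' i) 1 0 ↔ s' = Stt.yx)
    (hr : RR θ (asm k C) (asm k C')) : Tr θ k a b i s s' := by
  have hns0 : NS k 0 := fun h => by omega
  have hns1 : NS k 1 := fun h => by omega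
  have hokC : ∀ {D : ℕ → List ℕ}, Two01 k D → BlkOk k D := by
    intro D hD j hj c hc
    rcases hD j hj c hc with rfl | rfl
    · exact hns0
    · exact hns1
  have hV1 := vd_sh (vd_sh0 hV h0) h1
  have hV2 := vd_sh (vd_sh0 hV h0') h1'
  have hV3 := vd_sh (vd_sh0 hV h0) h1'
  have hW1 := vs_sh hV.ik h1 (vs_sh0 hV.ik h0 hs)
  have hW2 := vs_sh hV.ik h1' (vs_sh0 hV.ik h0' hs')
  have hW3 := vs_sh hV.ik h1' (vs_sh0 hV.ik h0 hs')
  have e1 := to_W hNFE hOKW hβ hV1 hW1 h01 (fun _ _ => rfl) (fun _ _ => rfl) hf1 hf2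
  have e2 := to_W hNFE hOKW hβ hV2 hW2 h01' (fun _ _ => rfl) (fun _ _ => rfl) hf1' hf2'
  have hL0 : L1 θ k (fun j => (C' j).count 0) (fun j => (C j).count 0) :=
    RR.symm (hONE.1 θ k C C' 0 hns0 (hokC h01) (hokC h01') hr)
  have hL1 : L1 θ k (fun j => (C' j).count 1) (fun j => (C j).count 1) :=
    RR.symm (hONE.1 θ k C C' 1 hns1 (hokC h01) (hokC h01') hr)
  have hSh0 : Sh k (fun j => (C' j).count 0) (fun j => (C j).count 0) := by
    intro j hj
    have h2 := h0 j hj
    have h3 := h0' j hj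
    simp only at h2 h3 ⊢
    omega
  have hSh1 : Sh k (fun j => (C' j).count 1) (fun j => (C j).count 1) := by
    intro j hj
    have h2 := h1 j hj
    have h3 := h1' j hj
    simp only at h2 h3 ⊢
    omega
  have e3 := hRS0 n β θ hβ hθ k _ _ _ i hV2 hV3 hSh0 hL0 s' hW2
  have e4 := hRES n β θ hβ hθ k _ _ _ i hV3 hV1 hSh1 hL1 s' hW3
  have e5 : Tr θ k (fun j => (C j).count 0) (fun j => (C j).count 1) i s s' :=
    θ.trans (RR.symm (hθ _ _ e1)) (θ.trans hr (θ.trans (hθ _ _ e2) (θ.trans e3 e4)))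
  exact (hSHW n β θ hβ hθ k a b _ _ i hV hV1 h0 h1 s s' hs hs').2 e5

open Classical in
/-- the numbers of a letter are kept outside of the free blocks -/
theorem cnt (hTRN : MWL.TrnStmt) (hABS : MWL.AbsStmt) (hKEY : MWL.KeyStmt) {n : ℕ} (hn : 1 ≤ n)
    {θ : FIC} (hLR : LR n (FC.ofFIC θ)) (hND : ND (FC.ofFIC θ)) {k : ℕ} {b : ℕ → ℕ} {F : ℕ → Prop}
    (hF : ∀ j ≤ k, F j → 2 ≤ b j) {u u' : ℕ → ℕ} (hL : L1 θ k u u')
    (hA : ∀ j ≤ k, ¬ F j → u j = b j)
    (hab : ∀ j ≤ k, ¬ F j → ¬ Ab n (FC.ofFIC θ) k b j) : ∀ j ≤ k, ¬ F j → u' j = b j := by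
  intro j hj hFj
  have h1 : ¬ Ab n (FC.ofFIC θ) k u j := by
    intro h
    have h2 := (hTRN n (FC.ofFIC θ) k u j).2.1
      (fun t => if F t then (n - 1) * u t + b t else 0) h
    have h3 : (FC.ofFIC θ).R k
        (fun t => u t + if F t then (n - 1) * u t + b t else 0) b := by
      apply (hABS n (FC.ofFIC θ) hLR k _).2
      intro t ht
      by_cases hFt : F t
      · right
        have hbt := hF t ht hFt
        refine ⟨⟨?_, t, le_refl t, ?_⟩, ⟨?_, t, le_refl t, hbt⟩, ?_⟩
        · simp only [if_pos hFt]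
          omega
        · simp only [if_pos hFt]
          omega
        · omega
        · simp only [if_pos hFt]
          obtain ⟨m, rfl⟩ : ∃ m, n = m + 1 := ⟨n - 1, by omega⟩
          have he : u t + ((m + 1 - 1) * u t + b t) = b t + (m + 1) * u t := by
            rw [Nat.add_sub_cancel]
            ring
          rw [he]
          unfold Nat.ModEq
          rw [Nat.add_mul_mod_self_left]
      · left
        simp only [if_neg hFt]
        exact hA t ht hFt
    have h4 := ((hTRN n (FC.ofFIC θ) k _ j).1 b h3).1 h2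
    exact hab j hj hFj h4
  have h2 := hKEY n (FC.ofFIC θ) hLR hND k u u' hL j hj h1
  have h3 := hA j hj hFj
  omega

open Classical in
/-- the letters which are inserted: `[0,0]` in the blocks of `G`, `[1,1]` in the blocks of `F` -/
noncomputable def ins (F G : ℕ → Prop) (j : ℕ) : List ℕ :=
  (if G j then [0, 0] else []) ++ (if F j then [1, 1] else [])

open Classical in
theorem ins_mem {F G : ℕ → Prop} {j c : ℕ} (h : c ∈ ins F G j) : c = 0 ∨ c = 1 := by
  unfold ins at h
  rcases List.mem_append.1 h with h | h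
  · by_cases hG : G j
    · rw [if_pos hG] at h
      left
      simpa using h
    · rw [if_neg hG] at h
      simp at h
  · by_cases hF : F j
    · rw [if_pos hF] at h
      right
      simpa using h
    · rw [if_neg hF] at h
      simp at h

open Classical in
theorem ins_c0 {F G : ℕ → Prop} {j : ℕ} : (ins F G j).count 0 = if G j then 2 else 0 := by
  unfold ins
  by_cases hG : G j <;> by_cases hF : F j <;> simp [hG, hF]

open Classical in
theorem ins_c1 {F G : ℕ → Prop} {j : ℕ} : (ins F G j).count 1 = if F j then 2 else 0 := by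
  unfold ins
  by_cases hG : G j <;> by_cases hF : F j <;> simp [hG, hF]

open Classical in
theorem ins_F {F G : ℕ → Prop} {j : ℕ} (hG : ¬ G j) (hF : F j) : ins F G j = [1, 1] := by
  unfold ins
  simp [hG, hF]

open Classical in
theorem ins_N {F G : ℕ → Prop} {j : ℕ} (hG : ¬ G j) (hF : ¬ F j) : ins F G j = [] := by
  unfold ins
  simp [hG, hF]

theorem sh_ins {H : ℕ → Prop} {k : ℕ} {a u v : ℕ → ℕ} (hH : ∀ j ≤ k, H j → 2 ≤ a j)
    (hA : ∀ j ≤ k, ¬ H j → u j = a j) (hv : ∀ j ≤ k, H j → 2 ≤ v j)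
    (hv' : ∀ j ≤ k, ¬ H j → v j = u j) : Sh k a v := by
  intro j hj
  by_cases hHj : H j
  · exact Or.inr ⟨hH j hj hHj, hv j hj hHj⟩
  · left
    rw [hv' j hj hHj, hA j hj hHj]

theorem jp2 (hONE : MVO.OneStmt) (hTRN : MWL.TrnStmt) (hABS : MWL.AbsStmt) (hKEY : MWL.KeyStmt)
    (hLRNN : MWHP.LrnnStmt) (hNDQ : MWA.NdqStmt) (hJPIN : MWHP.JpinStmt) (hNFE : MWHP.NfeStmt)
    (hOKW : MWH.OkwStmt) (hSHW : MWHP.ShwStmt) (hRES : MWHP.ResStmt) (hRS0 : Rs0Stmt) :
    Jp2Stmt := by
  intro n β hβ k a b i F G hV hai1 hF hG s s' hcase hab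
  have hns0 : NS k 0 := fun h => by omega
  have hns1 : NS k 1 := fun h => by omega
  have hGi : ¬ G i := by
    intro h
    have := hG i hV.ik h
    omega
  have hs : Vs a b i s := by
    rintro rfl
    rcases hcase with ⟨_, h, _⟩ | ⟨_, h, _⟩ | ⟨_, h, _⟩ <;> simp at h
  have hs' : Vs a b i s' := by
    rintro rfl
    rcases hcase with ⟨_, _, h⟩ | ⟨h, _, _⟩ | ⟨h, _, _⟩
    · simp at h
    · exact Or.inr (hF i hV.ik h)
    · exact Or.inr (hF i hV.ik h)
  obtain ⟨hok, hw01, hcnt, hmem, hb1, hb2⟩ := hOKW k a b i s hV hs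
  obtain ⟨hok', hw01', hcnt', hmem', hb1', hb2'⟩ := hOKW k a b i s' hV hs'
  refine hJPIN n β hβ.toBasN k (W a b i s) (W a b i s')
    (fun B => (∀ j ≤ k, ¬ G j → (B j).count 0 = a j) ∧ (∀ j ≤ k, ¬ F j → (B j).count 1 = b j) ∧
      (s = Stt.xy → Bef (B i) 0 1) ∧ (s = Stt.yx → Bef (B i) 1 0)) hok hok' hw01 ?_ ?_ ?_ ?_
  · exact ⟨fun j _ _ => (hcnt j).1, fun j _ _ => (hcnt j).2, hb1.2, hb2.2⟩
  · rintro ⟨_, _, h3, h4⟩
    rcases hcase with ⟨_, h, h'⟩ | ⟨_, h, h'⟩ | ⟨_, h, h'⟩
    · have := hb1'.1 (h3 h)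
      rw [h'] at this
      simp at this
    · have := hb1'.1 (h3 h)
      rw [h'] at this
      simp at this
    · have := hb2'.1 (h4 h)
      rw [h'] at this
      simp at this
  · rintro B B' hBB ⟨h1, h2, h3, h4⟩
    refine ⟨fun j hj hj' => by rw [← hBB j hj]; exact h1 j hj hj',
      fun j hj hj' => by rw [← hBB j hj]; exact h2 j hj hj', fun h => ?_, fun h => ?_⟩
    · rw [← hBB i hV.ik]
      exact h3 h
    · rw [← hBB i hV.ik]
      exact h4 h
  · intro θ hθ hNC hnTr B B' hB hB' hB01 hB01' hr hA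
    obtain ⟨hA0, hA1, hA2, hA3⟩ := hA
    obtain ⟨hab0, hab1⟩ := hab θ hθ hNC hnTr
    have hLR := hLRNN n β θ hβ.toBasN hθ
    have hND := hNDQ β θ hβ.toBasN.cap hθ hNC
    have hn : 1 ≤ n := hβ.toBasN.pos
    have hL0 : L1 θ k (ty B 0) (ty B' 0) := hONE.1 θ k B B' 0 hns0 hB.ok hB'.ok hr
    have hL1 : L1 θ k (ty B 1) (ty B' 1) := hONE.1 θ k B B' 1 hns1 hB.ok hB'.ok hr
    have hA0' : ∀ j ≤ k, ¬ G j → (B' j).count 0 = a j :=
      cnt hTRN hABS hKEY hn hLR hND hG hL0 hA0 hab0
    have hA1' : ∀ j ≤ k, ¬ F j → (B' j).count 1 = b j :=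
      cnt hTRN hABS hKEY hn hLR hND hF hL1 hA1 hab1
    have hm0 : 0 ∈ B i := by
      have h1 := hA0 i hV.ik hGi
      have h2 := hV.ai
      exact List.count_pos_iff.1 (by omega)
    have hm0' : 0 ∈ B' i := by
      have h1 := hA0' i hV.ik hGi
      have h2 := hV.ai
      exact List.count_pos_iff.1 (by omega)
    refine ⟨hA0', hA1', ?_, ?_⟩
    · intro hxy
      by_contra hnb
      -- insert at the end
      have hins := rr_ins' θ (fun _ => []) (ins F G) hB.ok hB'.ok hr
      simp only [List.nil_append] at hins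
      have p1 : ∀ C : ℕ → List ℕ, Two01 k C → Two01 k (fun j => C j ++ ins F G j) := by
        intro C hC01 j hj c hc
        rcases List.mem_append.1 hc with hc | hc
        · exact hC01 j hj c hc
        · exact ins_mem hc
      have p2 : ∀ C : ℕ → List ℕ, (∀ j ≤ k, ¬ G j → (C j).count 0 = a j) →
          Sh k a (fun j => (C j ++ ins F G j).count 0) := by
        intro C hC0
        refine sh_ins hG hC0 ?_ ?_
        · intro j _ hGj
          simp only [List.count_append, ins_c0, if_pos hGj]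
          omega
        · intro j _ hGj
          simp only [List.count_append, ins_c0, if_neg hGj]
          omega
      have p3 : ∀ C : ℕ → List ℕ, (∀ j ≤ k, ¬ F j → (C j).count 1 = b j) →
          Sh k b (fun j => (C j ++ ins F G j).count 1) := by
        intro C hC1
        refine sh_ins hF hC1 ?_ ?_
        · intro j _ hFj
          simp only [List.count_append, ins_c1, if_pos hFj]
          omega
        · intro j _ hFj
          simp only [List.count_append, ins_c1, if_neg hFj]
          omega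
      have fin := fun (e1 : Bef (B i ++ ins F G i) 0 1 ↔ s = Stt.xy)
          (e2 : Bef (B i ++ ins F G i) 1 0 ↔ s = Stt.yx)
          (e3 : Bef (B' i ++ ins F G i) 0 1 ↔ s' = Stt.xy)
          (e4 : Bef (B' i ++ ins F G i) 1 0 ↔ s' = Stt.yx) =>
        key2 hONE hNFE hOKW hSHW hRES hRS0 hβ hθ hV hs hs' (p1 B hB01) (p1 B' hB01') (p2 B hA0)
          (p2 B' hA0') (p3 B hA1) (p3 B' hA1') e1 e2 e3 e4 hins
      rcases hcase with ⟨hbi, _, hyx⟩ | ⟨hFi, _, hov⟩ | ⟨_, hcon, _⟩
      · -- case (i)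
        have hFi : ¬ F i := by
          intro h
          have := hF i hV.ik h
          omega
        have hc0 := hA0 i hV.ik hGi
        have hc1 := hA1 i hV.ik hFi
        have hc0' := hA0' i hV.ik hGi
        have hc1' := hA1' i hV.ik hFi
        have hBi : B' i = [1, 0] := by
          rcases len_two (hB01' i hV.ik) (by omega) (by omega) with h | h
          · exfalso
            apply hnb
            rw [h]
            exact bef01
          · exact h
        have hm1 : 1 ∈ B i := List.count_pos_iff.1 (by omega)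
        rw [ins_N hGi hFi] at fin
        simp only [List.append_nil] at fin
        apply hnTr
        apply fin
        · exact ⟨fun _ => hxy, fun _ => hA2 hxy⟩
        · rw [hxy]
          exact ⟨fun h => (not_bef_both (by omega) hm0 hm1 (hA2 hxy) h).elim,
            fun h => by simp at h⟩
        · rw [hyx]
          exact ⟨fun h => absurd h hnb, fun h => by simp at h⟩
        · rw [hBi, hyx]
          exact ⟨fun _ => rfl, fun _ => bef10⟩
      · -- case (ii)
        have hb11 : Bef [1, 1] 0 1 := bef_of_not_mem_fst (by simp)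
        rw [ins_F hGi hFi] at fin
        apply hnTr
        apply fin
        · rw [bef_append, hxy]
          exact ⟨fun _ => rfl, fun _ => ⟨hA2 hxy, hb11, fun _ => by simp⟩⟩
        · rw [bef_append, hxy]
          exact ⟨fun h => absurd (by simp) (h.2.2 hm0), fun h => by simp at h⟩
        · rw [bef_append, hov]
          exact ⟨fun h => absurd h.1 hnb, fun h => by simp at h⟩
        · rw [bef_append, hov]
          exact ⟨fun h => absurd (by simp) (h.2.2 hm0'), fun h => by simp at h⟩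
      · rw [hxy] at hcon
        simp at hcon
    · intro hyx
      by_contra hnb
      -- insert in front
      have hins := rr_ins' θ (ins F G) (fun _ => []) hB.ok hB'.ok hr
      simp only [List.append_nil] at hins
      have p1 : ∀ C : ℕ → List ℕ, Two01 k C → Two01 k (fun j => ins F G j ++ C j) := by
        intro C hC01 j hj c hc
        rcases List.mem_append.1 hc with hc | hc
        · exact ins_mem hc
        · exact hC01 j hj c hc
      have p2 : ∀ C : ℕ → List ℕ, (∀ j ≤ k, ¬ G j → (C j).count 0 = a j) →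
          Sh k a (fun j => (ins F G j ++ C j).count 0) := by
        intro C hC0
        refine sh_ins hG hC0 ?_ ?_
        · intro j _ hGj
          simp only [List.count_append, ins_c0, if_pos hGj]
          omega
        · intro j _ hGj
          simp only [List.count_append, ins_c0, if_neg hGj]
          omega
      have p3 : ∀ C : ℕ → List ℕ, (∀ j ≤ k, ¬ F j → (C j).count 1 = b j) →
          Sh k b (fun j => (ins F G j ++ C j).count 1) := by
        intro C hC1
        refine sh_ins hF hC1 ?_ ?_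
        · intro j _ hFj
          simp only [List.count_append, ins_c1, if_pos hFj]
          omega
        · intro j _ hFj
          simp only [List.count_append, ins_c1, if_neg hFj]
          omega
      have fin := fun (e1 : Bef (ins F G i ++ B i) 0 1 ↔ s = Stt.xy)
          (e2 : Bef (ins F G i ++ B i) 1 0 ↔ s = Stt.yx)
          (e3 : Bef (ins F G i ++ B' i) 0 1 ↔ s' = Stt.xy)
          (e4 : Bef (ins F G i ++ B' i) 1 0 ↔ s' = Stt.yx) =>
        key2 hONE hNFE hOKW hSHW hRES hRS0 hβ hθ hV hs hs' (p1 B hB01) (p1 B' hB01') (p2 B hA0)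
          (p2 B' hA0') (p3 B hA1) (p3 B' hA1') e1 e2 e3 e4 hins
      rcases hcase with ⟨_, hcon, _⟩ | ⟨_, hcon, _⟩ | ⟨hFi, _, hov⟩
      · rw [hyx] at hcon
        simp at hcon
      · rw [hyx] at hcon
        simp at hcon
      · have hb11 : Bef [1, 1] 1 0 := bef_of_not_mem_snd (by simp)
        rw [ins_F hGi hFi] at fin
        apply hnTr
        apply fin
        · rw [bef_append, hyx]
          exact ⟨fun h => absurd hm0 (h.2.2 (by simp)), fun h => by simp at h⟩
        · rw [bef_append, hyx]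
          exact ⟨fun _ => rfl, fun _ => ⟨hb11, hA3 hyx, fun h => by simp at h⟩⟩
        · rw [bef_append, hov]
          exact ⟨fun h => absurd hm0' (h.2.2 (by simp)), fun h => by simp at h⟩
        · rw [bef_append, hov]
          exact ⟨fun h => absurd h.2.1 hnb, fun h => by simp at h⟩

end Pool.Agent.MWGP.H50
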